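import Pool.Agent.Q82.MD.Gen
import Pool.Agent.Q92.MD.FlowG
import Pool.Agent.Q176.MD.Slem
import Pool.Agent.Q210.MD.SEL
import Pool.Agent.Q210.MD.PRIM
import Pool.Agent.Q144.MD.LC
import Pool.Agent.Q144.MD.Apx
import Pool.Agent.Q144.MD.NF
import Pool.Agent.Q53.MD.Moll
import Pool.Agent.Q53.MD.Dual
import Pool.Agent.Q53.MD.Joint
import Pool.Agent.Q79.MD.CS
import Pool.Agent.Q79.MD.RS2
import Pool.Agent.Q223.MD.KS
import Pool.Agent.Q104.MD.Reg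
import Pool.Agent.Q104.MD.ImI
import Pool.Agent.Q104.MD.Is
import Pool.Agent.Q38.MD.Sep
import Pool.Agent.Q128.MD.CRK
import Pool.Agent.Q175.MD.Flow1
import Pool.Agent.Q175.MD.Cr0

/-! Project MD (helper82): all lemmas put together. -/

set_option autoImplicit false

namespace Pool.Agent.Q82.MD

theorem hSEL : S_SEL := Pool.Agent.Q210.MD.sel Pool.Agent.Q176.MD.slem
theorem hFORM : S_FORM := Pool.Agent.Q176.MD.form hSEL Pool.Agent.Q210.MD.prim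
theorem hMROC : S_MROC := Pool.Agent.Q53.MD.mroc Pool.Agent.Q53.MD.moll
theorem hC : S_C := Pool.Agent.Q128.MD.c hMROC Q144.MD.limq
  (Pool.Agent.Q79.MD.cs hFORM Q144.MD.lc)
theorem hR : S_R := Pool.Agent.Q128.MD.r hMROC Q144.MD.limq
  (Pool.Agent.Q79.MD.rs hFORM Q144.MD.lc)
theorem hK : S_K := Pool.Agent.Q128.MD.k hMROC Q144.MD.limq
  (Pool.Agent.Q223.MD.ks hFORM)
theorem hKG : S_KG := Q144.MD.kg Q144.MD.nf Q144.MD.lc
  Q144.MD.tc hK
theorem hREG : S_REG := Pool.Agent.Q104.MD.reg Pool.Agent.Q53.MD.moll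
theorem hJOINT : S_JOINT := Pool.Agent.Q53.MD.joint Pool.Agent.Q92.MD.flowg hFORM
theorem hCR0 : S_CR0 := Pool.Agent.Q175.MD.cr0 Pool.Agent.Q210.MD.prim
  Pool.Agent.Q175.MD.flow1 Q144.MD.limq
theorem hIs : S_Is := Pool.Agent.Q104.MD.is Pool.Agent.Q53.MD.dual hREG hJOINT Q144.MD.apx
theorem hI : S_I := Pool.Agent.Q104.MD.i Pool.Agent.Q53.MD.moll Q144.MD.limq hIs
theorem hSEP : S_SEP := Pool.Agent.Q38.MD.sep

end Pool.Agent.Q82.MD
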