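import Pool.Agent.Q82.MD.Stm2

/-! Project MD (helper82): the statements for general directions. -/

set_option autoImplicit false

namespace Pool.Agent.Q82.MD

open MeasureTheory Set Filter Topology
open Pool.Agent.W779.Morrey

theorem roc_lc {W : Matrix (Fin 2) (Fin 2) ℝ → ℝ} (h : RankOneConvex W)
    (R : Matrix (Fin 2) (Fin 2) ℝ) (hR : R.det ≠ 0) : RankOneConvex (fun F => W (F * R)) := by
  intro F H hH t h0 h1
  have hu : IsUnit R.det := isUnit_iff_ne_zero.2 hR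
  have := h (F * R) (H * R) (by rw [Matrix.rank_mul_eq_left_of_isUnit_det _ _ hu]; exact hH) t h0 h1
  simpa only [Matrix.add_mul, Matrix.smul_mul] using this

theorem roc_tc {W : Matrix (Fin 2) (Fin 2) ℝ → ℝ} (h : RankOneConvex W)
    (R : Matrix (Fin 2) (Fin 2) ℝ) (hR : R.det ≠ 0) : RankOneConvex (fun F => W (R * F)) := by
  intro F H hH t h0 h1
  have hu : IsUnit R.det := isUnit_iff_ne_zero.2 hR
  have := h (R * F) (R * H) (by rw [Matrix.rank_mul_eq_right_of_isUnit_det _ _ hu]; exact hH) t h0 h1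
  simpa only [Matrix.mul_add, Matrix.mul_smul] using this

theorem det_inv_ne {R : Matrix (Fin 2) (Fin 2) ℝ} (hu : IsUnit R.det) : (R⁻¹).det ≠ 0 :=
  ((Matrix.isUnit_nonsing_inv_det_iff).2 hu).ne_zero

/-- a matrix with a given nonzero first column -/
theorem exists_col (n : V) (hn : n ≠ 0) :
    ∃ R : Matrix (Fin 2) (Fin 2) ℝ, R.det ≠ 0 ∧ ∀ i, R i 0 = n i := by
  by_cases h : n 0 = 0
  · refine ⟨!![n 0, 1; n 1, 0], ?_, fun i => by fin_cases i <;> rfl⟩
    rw [Matrix.det_fin_two]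
    simp
    intro h1
    exact hn (by ext i; fin_cases i <;> simp [h, h1])
  · refine ⟨!![n 0, 0; n 1, 1], ?_, fun i => by fin_cases i <;> rfl⟩
    rw [Matrix.det_fin_two]
    simp [h]

/-- the bilinear form of a quadratic form, as a continuous bilinear map on `E` -/
theorem exists_bil (Q : QuadraticForm ℝ (Matrix (Fin 2) (Fin 2) ℝ)) :
    ∃ B : E →L[ℝ] E →L[ℝ] ℝ, (∀ F G, B F G = B G F) ∧ ∀ F : E, B F F = Q F := by
  let b : LinearMap.BilinForm ℝ E := (QuadraticMap.associated (R := ℝ) Q : _)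
  have hb : ∀ F G, b F G = b G F := fun F G => by
    exact QuadraticMap.associated_isSymm ℝ Q F G
  have hb2 : ∀ F : E, b F F = Q F := fun F => QuadraticMap.associated_eq_self_apply ℝ Q F
  let c : E →ₗ[ℝ] (E →L[ℝ] ℝ) :=
    { toFun := fun F => LinearMap.toContinuousLinearMap (b F)
      map_add' := fun F G => by ext H; simp
      map_smul' := fun a F => by ext H; simp }
  refine ⟨LinearMap.toContinuousLinearMap c, fun F G => ?_, fun F => ?_⟩
  · exact hb F G
  · exact hb2 F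

/-- (1) -/
theorem gen1 (hC : S_C) (hLC : S_LC) (ψ : V → ℝ) (n : V)
    (Q : QuadraticForm ℝ (Matrix (Fin 2) (Fin 2) ℝ))
    (h : RankOneConvex (fun F => ψ (F.mulVec n) + Q F)) :
    Quasiconvex (fun F => ψ (F.mulVec n) + Q F) := by
  by_cases hn : n = 0
  · obtain ⟨B, hB, hBQ⟩ := exists_bil Q
    have e : (fun F : Matrix (Fin 2) (Fin 2) ℝ => ψ (F.mulVec n) + Q F)
        = fun F => (fun _ : V => ψ 0) (fun r => F r 0) + B F F := by
      funext F
      exact congrArg₂ (· + ·) (by rw [hn, Matrix.mulVec_zero]) (hBQ F).symm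
    rw [e] at h ⊢
    exact hC (fun _ => ψ 0) B hB h
  · obtain ⟨R, hR, hRn⟩ := exists_col n hn
    have hu : IsUnit R.det := isUnit_iff_ne_zero.2 hR
    have hRi : (R⁻¹).det ≠ 0 := det_inv_ne hu
    obtain ⟨B, hB, hBQ⟩ := exists_bil
      (Q.comp (LinearMap.mulRight ℝ (R⁻¹) : Matrix (Fin 2) (Fin 2) ℝ →ₗ[ℝ] _))
    have h1 := roc_lc h R⁻¹ hRi
    have e : (fun F : Matrix (Fin 2) (Fin 2) ℝ => ψ ((F * R⁻¹).mulVec n) + Q (F * R⁻¹))
        = fun F => ψ (fun r => F r 0) + B F F := by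
      funext F
      have e1 : (F * R⁻¹).mulVec n = fun r => F r 0 := by
        have e2 : n = R.mulVec (Pi.single 0 1) := by
          ext i
          rw [Matrix.mulVec_single_one]
          exact (hRn i).symm
        rw [e2, Matrix.mulVec_mulVec, Matrix.mul_assoc, Matrix.nonsing_inv_mul _ hu, Matrix.mul_one,
          Matrix.mulVec_single_one]
        rfl
      exact congrArg₂ (· + ·) (congrArg ψ e1) (hBQ F).symm
    refine hLC _ R⁻¹ hRi ?_
    change Quasiconvex (fun F : Matrix (Fin 2) (Fin 2) ℝ => ψ ((F * R⁻¹).mulVec n) + Q (F * R⁻¹))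
    change RankOneConvex (fun F : Matrix (Fin 2) (Fin 2) ℝ => ψ ((F * R⁻¹).mulVec n)
      + Q (F * R⁻¹)) at h1
    rw [e] at h1 ⊢
    exact hC ψ B hB h1

/-- (2) -/
theorem gen2 (hRR : S_R) (hTC : S_TC) (ψ : V → ℝ) (m : V)
    (Q : QuadraticForm ℝ (Matrix (Fin 2) (Fin 2) ℝ))
    (h : RankOneConvex (fun F => ψ (Matrix.vecMul m F) + Q F)) :
    Quasiconvex (fun F => ψ (Matrix.vecMul m F) + Q F) := by
  by_cases hm : m = 0
  · obtain ⟨B, hB, hBQ⟩ := exists_bil Q
    have e : (fun F : Matrix (Fin 2) (Fin 2) ℝ => ψ (Matrix.vecMul m F) + Q F)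
        = fun F => (fun _ : V => ψ 0) (F 0) + B F F := by
      funext F
      exact congrArg₂ (· + ·) (by rw [hm, Matrix.zero_vecMul]) (hBQ F).symm
    rw [e] at h ⊢
    exact hRR (fun _ => ψ 0) B hB h
  · obtain ⟨R0, hR0, hRn0⟩ := exists_col m hm
    set R := R0.transpose with hRdef
    have hR : R.det ≠ 0 := by rw [hRdef, Matrix.det_transpose]; exact hR0
    have hRn : ∀ i, R 0 i = m i := fun i => hRn0 i
    have hu : IsUnit R.det := isUnit_iff_ne_zero.2 hR
    have hRi : (R⁻¹).det ≠ 0 := det_inv_ne hu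
    obtain ⟨B, hB, hBQ⟩ := exists_bil
      (Q.comp (LinearMap.mulLeft ℝ (R⁻¹) : Matrix (Fin 2) (Fin 2) ℝ →ₗ[ℝ] _))
    have h1 := roc_tc h R⁻¹ hRi
    have e : (fun F : Matrix (Fin 2) (Fin 2) ℝ => ψ (Matrix.vecMul m (R⁻¹ * F)) + Q (R⁻¹ * F))
        = fun F => ψ (F 0) + B F F := by
      funext F
      have e1 : Matrix.vecMul m (R⁻¹ * F) = F 0 := by
        have e2 : m = Matrix.vecMul (Pi.single 0 1) R := by
          ext i
          rw [Matrix.single_one_vecMul]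
          exact (hRn i).symm
        rw [e2, Matrix.vecMul_vecMul, ← Matrix.mul_assoc, Matrix.mul_nonsing_inv _ hu,
          Matrix.one_mul, Matrix.single_one_vecMul]
        rfl
      exact congrArg₂ (· + ·) (congrArg ψ e1) (hBQ F).symm
    refine hTC _ R⁻¹ hRi ?_
    change Quasiconvex (fun F : Matrix (Fin 2) (Fin 2) ℝ => ψ (Matrix.vecMul m (R⁻¹ * F))
      + Q (R⁻¹ * F))
    change RankOneConvex (fun F : Matrix (Fin 2) (Fin 2) ℝ => ψ (Matrix.vecMul m (R⁻¹ * F))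
      + Q (R⁻¹ * F)) at h1
    rw [e] at h1 ⊢
    exact hRR ψ B hB h1

/-- (3) -/
theorem gen3 (hI : S_I) (φ : V → ℝ) (L : Matrix (Fin 2) (Fin 2) ℝ →ₗ[ℝ] V) (K : ℝ) (hK : 0 ≤ K)
    (hφ : ConvexOn ℝ univ φ)
    (h : RankOneConvex (fun F => K / 2 * (∑ i, ∑ j, F i j ^ 2) - φ (L F))) :
    Quasiconvex (fun F => K / 2 * (∑ i, ∑ j, F i j ^ 2) - φ (L F)) := by
  let L' : E →L[ℝ] V := LinearMap.toContinuousLinearMap (L : E →ₗ[ℝ] V)
  have e : (fun F : Matrix (Fin 2) (Fin 2) ℝ => K / 2 * (∑ i, ∑ j, F i j ^ 2) - φ (L F))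
      = fun F => K / 2 * nn F - φ (L' F) := by
    funext F
    have e1 : (∑ i, ∑ j, F i j ^ 2) = nn F := by
      simp only [Fin.sum_univ_two, nn]; ring
    rw [e1]
    rfl
  rw [e] at h ⊢
  exact hI L' K φ hK hφ h

theorem rank_tens {z ξ : V} (hz : z ≠ 0) (hξ : ξ ≠ 0) :
    Matrix.rank (tens z ξ : Matrix (Fin 2) (Fin 2) ℝ) = 1 := by
  have e : (tens z ξ : Matrix (Fin 2) (Fin 2) ℝ) = Matrix.vecMulVec z ξ := by
    ext i j; rfl
  rw [e]
  refine le_antisymm (Matrix.rank_vecMulVec_le z ξ) ?_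
  rw [Nat.one_le_iff_ne_zero]
  intro h00
  have h0 : Matrix.vecMulVec z ξ = 0 := by
    unfold Matrix.rank at h00
    rw [Submodule.finrank_eq_zero, LinearMap.range_eq_bot] at h00
    ext i j
    have h1 := congrFun (LinearMap.congr_fun h00 (Pi.single j 1)) i
    rw [Matrix.mulVecLin_apply, Matrix.mulVec_single_one] at h1
    exact h1
  apply hz
  obtain ⟨j, hj⟩ := Function.ne_iff.1 hξ
  ext i
  have h1 := congrFun (congrFun h0 i) j
  rw [Matrix.vecMulVec_apply, Matrix.zero_apply] at h1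
  rcases mul_eq_zero.1 h1 with h2 | h2
  · exact h2
  · exact absurd h2 hj

/-- (4) -/
theorem gen4 (hK : S_KG) (ψ : V → ℝ) (L M : Matrix (Fin 2) (Fin 2) ℝ →ₗ[ℝ] V) (κ : ℝ)
    (hL : ∀ F : Matrix (Fin 2) (Fin 2) ℝ, F.rank = 1 → L F ≠ 0)
    (h : RankOneConvex (fun F => ψ (L F) + (∑ i, L F i * M F i) + κ * F.det)) :
    Quasiconvex (fun F => ψ (L F) + (∑ i, L F i * M F i) + κ * F.det) := by
  let L' : E →L[ℝ] V := LinearMap.toContinuousLinearMap (L : E →ₗ[ℝ] V)
  let M' : E →L[ℝ] V := LinearMap.toContinuousLinearMap (M : E →ₗ[ℝ] V)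
  have e : (fun F : Matrix (Fin 2) (Fin 2) ℝ => ψ (L F) + (∑ i, L F i * M F i) + κ * F.det)
      = fun F => ψ (L' F) + dp (L' F) (M' F) + κ * (F 0 0 * F 1 1 - F 0 1 * F 1 0) := by
    funext F
    rw [Matrix.det_fin_two, Fin.sum_univ_two]
    rfl
  rw [e] at h ⊢
  refine hK ψ L' M' κ (fun z ξ h0 => ?_) h
  by_contra h1
  push Not at h1
  exact hL _ (rank_tens h1.1 h1.2) h0

/-- second derivative of a composition with a linear map -/
theorem hs_comp {X Y : Type*} [NormedAddCommGroup X] [NormedSpace ℝ X] [NormedAddCommGroup Y]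
    [NormedSpace ℝ Y] {W : Y → ℝ} (hW : ContDiff ℝ 2 W) (A : X →L[ℝ] Y) (F G H : X) :
    hs (fun F => W (A F)) F G H = hs W (A F) (A G) (A H) := by
  have hP1 : ContDiff ℝ 1 (fderiv ℝ W) := hW.fderiv_right (by norm_num)
  have e1 : fderiv ℝ (fun F => W (A F)) = fun F => (fderiv ℝ W (A F)).comp A := by
    funext F
    exact (((hW.differentiable (by norm_num) (A F)).hasFDerivAt).comp F A.hasFDerivAt).fderiv
  have h2 : HasFDerivAt (fun F => (fderiv ℝ W (A F)).comp A)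
      (((ContinuousLinearMap.compL ℝ X Y ℝ).flip A).comp
        ((fderiv ℝ (fderiv ℝ W) (A F)).comp A)) F := by
    have h3 : HasFDerivAt (fun F => fderiv ℝ W (A F)) ((fderiv ℝ (fderiv ℝ W) (A F)).comp A) F :=
      ((hP1.differentiable (by norm_num) (A F)).hasFDerivAt).comp F A.hasFDerivAt
    exact ((ContinuousLinearMap.compL ℝ X Y ℝ).flip A).hasFDerivAt.comp F h3
  unfold hs
  rw [e1, h2.fderiv]
  rfl

/-- the criterion -/
theorem gen0 (h0 : S_CR0) (hLC : S_LC) (W : Matrix (Fin 2) (Fin 2) ℝ → ℝ) (n : V) (c : V → ℝ)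
    (hW : ContDiff ℝ 2 (fun F : Fin 2 → Fin 2 → ℝ => W (Matrix.of F))) (hc : Continuous c)
    (h : ∀ F H : Fin 2 → Fin 2 → ℝ,
      0 ≤ fderiv ℝ (fderiv ℝ (fun F : Fin 2 → Fin 2 → ℝ => W (Matrix.of F))) F H H
        + c ((Matrix.of F).mulVec n) * (Matrix.of H).det) :
    Quasiconvex W := by
  by_cases hn : n = 0
  · refine h0 (fun F : E => W (Matrix.of F)) (fun _ => c 0) hW continuous_const fun F H => ?_
    have e1 : (Matrix.of F).mulVec n = 0 := by rw [hn, Matrix.mulVec_zero]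
    have e2 : (Matrix.of H).det = H 0 0 * H 1 1 - H 0 1 * H 1 0 := Matrix.det_fin_two _
    exact le_of_le_of_eq (h F H) (congrArg (fun t => hs (fun F : E => W (Matrix.of F)) F H H + t)
      (congrArg₂ (· * ·) (congrArg c e1) e2))
  · obtain ⟨R, hR, hRn⟩ := exists_col n hn
    have hu : IsUnit R.det := isUnit_iff_ne_zero.2 hR
    have hRi : (R⁻¹).det ≠ 0 := det_inv_ne hu
    refine hLC _ R⁻¹ hRi ?_
    let A : E →L[ℝ] E := LinearMap.toContinuousLinearMap
      ((LinearMap.mulRight ℝ (R⁻¹) : Matrix (Fin 2) (Fin 2) ℝ →ₗ[ℝ] Matrix (Fin 2) (Fin 2) ℝ) :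
        E →ₗ[ℝ] E)
    have hA : ∀ F : E, Matrix.of (A F) = Matrix.of F * R⁻¹ := fun F => rfl
    have hn2 : n = R.mulVec (Pi.single 0 1) := by
      ext i
      rw [Matrix.mulVec_single_one]
      exact (hRn i).symm
    have hW2 : ContDiff ℝ 2 (fun F : E => W (Matrix.of (A F))) :=
      ContDiff.comp (g := fun F : E => W (Matrix.of F)) hW A.contDiff
    refine h0 (fun F : E => W (Matrix.of (A F))) (fun v => c v * (R⁻¹).det) hW2
      (hc.mul continuous_const) fun F H => ?_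
    have h1 := h (A F) (A H)
    have h2 := hs_comp (W := fun F : E => W (Matrix.of F)) hW A F H H
    have e1 : (Matrix.of (A F)).mulVec n = fun r => F r 0 := by
      rw [hA, hn2, Matrix.mulVec_mulVec, Matrix.mul_assoc, Matrix.nonsing_inv_mul _ hu,
        Matrix.mul_one, Matrix.mulVec_single_one]
      rfl
    have e2 : (Matrix.of (A H)).det = (H 0 0 * H 1 1 - H 0 1 * H 1 0) * (R⁻¹).det := by
      rw [hA, Matrix.det_mul, Matrix.det_fin_two]
      rfl
    rw [h2]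
    refine le_of_le_of_eq h1 (congrArg (fun t => hs (fun F : E => W (Matrix.of F)) (A F) (A H)
      (A H) + t) ?_)
    rw [e1, e2]
    ring

end Pool.Agent.Q82.MD
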