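import Pool.Agent.W779.Morrey.Iso

/-!
# Project MD (helper82, row MP_515557_an): functions of two linear functionals plus a quadratic form

`V = ℝ²`, `E = 2 × 2` matrices `F r l = ∂_l u_r` (definitions of `Pool.Agent.W779.Morrey`).

Rank-one convexity implies quasiconvexity for

(C) `W(F) = ψ(F e₁) + B(F,F)`                (`ψ : ℝ² → ℝ` arbitrary, `B` any quadratic form)
(R) `W(F) = ψ(first row of F) + B(F,F)`      (same)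
(K) `W(F) = ψ(a(F)) + a(F)·m(F) + κ det F`,  `a(F) = (F₁₁+F₂₂, F₂₁-F₁₂)`, `m : E → ℝ²` linear
(I) `W(F) = (K/2) |F|² - φ(L F)`             (`L : E → ℝ²` any linear map, `φ` any convex function)

Method: heat flow `Z_t = ΔZ` (`flow_mono` of W779; here with values in any normed space) and one
exact two-form `dθ`, `θ = θ_y` a one-form on `ℝ²` evaluated at a planar map `g` (`g = F e₁`, first
row, `a(F)`, dual variable): `∫ dθ_g(∂₁g, ∂₂g) = 0`.  The form `dθ = c(y) dy₁∧dy₂` is found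
pointwise by the S-lemma (two quadratic forms, one of them the indefinite determinant) and chosen
smooth by a partition of unity.
-/

set_option autoImplicit false

namespace Pool.Agent.Q82.MD

open MeasureTheory Set Filter Topology
open Pool.Agent.W779.Morrey

/-- scalar product -/
def dp (a b : V) : ℝ := a 0 * b 0 + a 1 * b 1

/-- `a ∧ b` -/
def wd (a b : V) : ℝ := a 0 * b 1 - a 1 * b 0

/-- squared norm of a matrix -/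
def nn (F : E) : ℝ := F 0 0 ^ 2 + F 0 1 ^ 2 + F 1 0 ^ 2 + F 1 1 ^ 2

/-- the matrix `z ⊗ ξ` -/
def tens (z ξ : V) : E := fun r l => z r * ξ l

/-- second derivative -/
noncomputable def hs {X : Type*} [NormedAddCommGroup X] [NormedSpace ℝ X] (W : X → ℝ) (F G H : X) :
    ℝ := fderiv ℝ (fderiv ℝ W) F G H

/-- exterior derivative of a one-form -/
noncomputable def ed {X : Type*} [NormedAddCommGroup X] [NormedSpace ℝ X] (θ : X → X →L[ℝ] ℝ)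
    (F G H : X) : ℝ := fderiv ℝ θ F G H - fderiv ℝ θ F H G

/-! ### final notions -/

def RankOneConvex (W : Matrix (Fin 2) (Fin 2) ℝ → ℝ) : Prop :=
  ∀ F H : Matrix (Fin 2) (Fin 2) ℝ, H.rank = 1 → ∀ t : ℝ, 0 ≤ t → t ≤ 1 →
    W ((1 - t) • F + t • (F + H)) ≤ (1 - t) * W F + t * W (F + H)

def Quasiconvex (W : Matrix (Fin 2) (Fin 2) ℝ → ℝ) : Prop :=
  ∀ F₀ : Matrix (Fin 2) (Fin 2) ℝ, ∀ Ω : Set (Fin 2 → ℝ),
    IsOpen Ω → Bornology.IsBounded Ω →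
    ∀ ϑ : (Fin 2 → ℝ) → (Fin 2 → ℝ), (∃ K, LipschitzWith K ϑ) →
      (∀ x, x ∉ Ω → ϑ x = 0) →
      W F₀ * (MeasureTheory.volume Ω).toReal ≤
        ∫ x in Ω, W (F₀ + LinearMap.toMatrix'
          ((fderiv ℝ ϑ x : (Fin 2 → ℝ) →L[ℝ] (Fin 2 → ℝ)) :
            (Fin 2 → ℝ) →ₗ[ℝ] (Fin 2 → ℝ)))

/-! ### trigonometric polynomials with values in a normed space, and the heat flow -/

section gen

variable {X : Type*} [NormedAddCommGroup X] [NormedSpace ℝ X] {ι : Type*} [Fintype ι]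

noncomputable def tmG (k : Fin 2 → ℤ) (A B : X) (x : V) : X :=
  Real.cos (ph k x) • A + Real.sin (ph k x) • B

/-- a trigonometric polynomial with values in `X`, damped by the heat factors `s ^ |k|²` -/
noncomputable def FamG (k : ι → Fin 2 → ℤ) (A B : ι → X) (s : ℝ) (x : V) : X :=
  ∑ i, s ^ nk (k i) • tmG (k i) (A i) (B i) x

/-- its partial derivative `∂_j` -/
noncomputable def dFamG (k : ι → Fin 2 → ℤ) (A B : ι → X) (j : Fin 2) (s : ℝ) (x : V) : X :=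
  FamG k (fun i => (2 * Real.pi * k i j) • B i) (fun i => -((2 * Real.pi * k i j) • A i)) s x

end gen

/-- heat flow with an exact form, values in a normed space, admissible pairs of derivatives -/
def S_FLOWG : Prop := ∀ (X : Type) [NormedAddCommGroup X] [NormedSpace ℝ X] (W : X → ℝ)
  (θ : X → X →L[ℝ] ℝ) (adm : X → X → Prop), ContDiff ℝ 2 W → ContDiff ℝ 1 θ →
  (∀ F G₀ G₁ : X, adm G₀ G₁ → 0 ≤ hs W F G₀ G₀ + hs W F G₁ G₁ + ed θ F G₀ G₁) →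
  ∀ (ι : Type) [Fintype ι] (k : ι → Fin 2 → ℤ) (A B : ι → X) (z₀ : X),
  (∀ i, nk (k i) = 0 → A i = 0 ∧ B i = 0) →
  (∀ s x, adm (dFamG k A B 0 s x) (dFamG k A B 1 s x)) →
  W z₀ ≤ ∫ x in Icc (0 : V) 1, W (z₀ + FamG k A B 1 x)

/-! ### the exact form -/

/-- S-lemma -/
def S_SLEM : Prop := ∀ (X : Type) [NormedAddCommGroup X] [NormedSpace ℝ X]
  (q δ : X →L[ℝ] X →L[ℝ] ℝ), (∀ a b, q a b = q b a) → (∀ a b, δ a b = δ b a) →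
  (∃ x, 0 < δ x x) → (∃ x, δ x x < 0) → (∀ x, δ x x = 0 → 0 ≤ q x x) →
  ∃ c : ℝ, ∀ x, 0 ≤ q x x + c * δ x x

/-- smooth selection of the multiplier -/
def S_SEL : Prop := ∀ (X : Type) [NormedAddCommGroup X] [NormedSpace ℝ X] [FiniteDimensional ℝ X]
  (G : V → X →L[ℝ] X →L[ℝ] ℝ) (δ : X →L[ℝ] X →L[ℝ] ℝ) (η : ℝ), Continuous G →
  (∀ y a b, G y a b = G y b a) → (∀ a b, δ a b = δ b a) →
  (∃ x, 0 < δ x x) → (∃ x, δ x x < 0) → 0 < η →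
  (∀ y x, δ x x = 0 → η * ‖x‖ ^ 2 ≤ G y x x) →
  ∃ c : V → ℝ, ContDiff ℝ 1 c ∧ ∀ y x, 0 ≤ G y x x + c y * δ x x

/-- every two-form on the plane is exact: `θ_y = (∫₀¹ s c(sy) ds) (y₀ dy₁ - y₁ dy₀)` -/
def S_PRIM : Prop := ∀ c : V → ℝ, ContDiff ℝ 1 c →
  ∃ θ : V → V →L[ℝ] ℝ, ContDiff ℝ 1 θ ∧ ∀ y a b, ed θ y a b = c y * wd a b

/-- the exact form, for quadratic forms in the pair `(∂₀g, ∂₁g) = (a X, b X)` -/
def S_FORM : Prop := ∀ (X : Type) [NormedAddCommGroup X] [NormedSpace ℝ X] [FiniteDimensional ℝ X]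
  (G : V → X →L[ℝ] X →L[ℝ] ℝ) (a b : X →L[ℝ] V) (η : ℝ), Continuous G →
  (∀ y x x', G y x x' = G y x' x) → (∃ x, 0 < wd (a x) (b x)) → (∃ x, wd (a x) (b x) < 0) →
  0 < η → (∀ y x, wd (a x) (b x) = 0 → η * ‖x‖ ^ 2 ≤ G y x x) →
  ∃ θ : V → V →L[ℝ] ℝ, ContDiff ℝ 1 θ ∧ ∀ y x, 0 ≤ G y x x + ed θ y (a x) (b x)

/-! ### reductions -/

/-- linear change of the independent variables -/
def S_LC : Prop := ∀ (W : Matrix (Fin 2) (Fin 2) ℝ → ℝ) (R : Matrix (Fin 2) (Fin 2) ℝ),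
  R.det ≠ 0 → Quasiconvex (fun F => W (F * R)) → Quasiconvex W

/-- linear change of the dependent variables -/
def S_TC : Prop := ∀ (W : Matrix (Fin 2) (Fin 2) ℝ → ℝ) (R : Matrix (Fin 2) (Fin 2) ℝ),
  R.det ≠ 0 → Quasiconvex (fun F => W (R * F)) → Quasiconvex W

/-- local uniform limits -/
def S_LIMQ : Prop := ∀ W : Matrix (Fin 2) (Fin 2) ℝ → ℝ, Continuous W →
  (∀ R ε : ℝ, 0 < R → 0 < ε → ∃ W' : Matrix (Fin 2) (Fin 2) ℝ → ℝ, Continuous W' ∧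
    Quasiconvex W' ∧ ∀ F, (∀ i j, |F i j| ≤ R) → |W F - W' F| ≤ ε) → Quasiconvex W

/-- mollifiers on the plane -/
def S_MOLL : Prop := ∀ ε : ℝ, 0 < ε → ∃ μ : Measure V, IsProbabilityMeasure μ ∧
  (∀ᵐ s ∂μ, ∀ i, |s i| ≤ ε) ∧ (∀ i, ∫ s, s i ∂μ = 0) ∧
  ∀ θ : V → ℝ, Continuous θ → ContDiff ℝ 2 (fun y => ∫ s, θ (y + s) ∂μ)

/-! ### the four classes: smooth strict versions -/

/-- (C), smooth and strict -/
def S_Cs : Prop := ∀ (ψ : V → ℝ) (B : E →L[ℝ] E →L[ℝ] ℝ) (η : ℝ), ContDiff ℝ 2 ψ →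
  (∀ F G, B F G = B G F) → 0 < η →
  (∀ y z ξ : V, η * dp z z * dp ξ ξ ≤ hs ψ y (ξ 0 • z) (ξ 0 • z) + 2 * B (tens z ξ) (tens z ξ)) →
  Quasiconvex (fun F => ψ (fun r => F r 0) + B F F)

/-- (R), smooth and strict -/
def S_Rs : Prop := ∀ (ψ : V → ℝ) (B : E →L[ℝ] E →L[ℝ] ℝ) (η : ℝ), ContDiff ℝ 2 ψ →
  (∀ F G, B F G = B G F) → 0 < η →
  (∀ y z ξ : V, η * dp z z * dp ξ ξ ≤ hs ψ y (z 0 • ξ) (z 0 • ξ) + 2 * B (tens z ξ) (tens z ξ)) →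
  Quasiconvex (fun F => ψ (F 0) + B F F)

/-- twice the conformal part -/
def cf (F : E) : V := ![F 0 0 + F 1 1, F 1 0 - F 0 1]

/-- (K), smooth and strict -/
def S_Ks : Prop := ∀ (ψ : V → ℝ) (m : E →L[ℝ] V) (κ η : ℝ), ContDiff ℝ 2 ψ → 0 < η →
  (∀ y z ξ : V, η * dp z z * dp ξ ξ ≤ hs ψ y (cf (tens z ξ)) (cf (tens z ξ))
    + 2 * dp (cf (tens z ξ)) (m (tens z ξ))) →
  Quasiconvex (fun F => ψ (cf F) + dp (cf F) (m F) + κ * (F 0 0 * F 1 1 - F 0 1 * F 1 0))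

/-! ### (I) -/

/-- the row `r` unit matrix with row `ξ` -/
def rowm (r : Fin 2) (ξ : V) : E := fun i l => if i = r then ξ l else 0

/-- `|ℓ_ξ^* p|²`, where `ℓ_ξ z = L (z ⊗ ξ)` -/
def adj2 (L : E →L[ℝ] V) (ξ p : V) : ℝ := dp p (L (rowm 0 ξ)) ^ 2 + dp p (L (rowm 1 ξ)) ^ 2

/-- Legendre transform -/
def S_DUAL : Prop := ∀ (L : E →L[ℝ] V) (K δ : ℝ) (φ : V → ℝ), 0 < K → 0 < δ →
  ConvexOn ℝ univ (fun y => φ y - δ / 2 * dp y y) →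
  (∀ y z ξ : V, ConvexOn ℝ univ
    (fun t : ℝ => K / 2 * (dp z z * dp ξ ξ) * t ^ 2 - φ (y + t • L (tens z ξ)))) →
  ∃ ψ : V → ℝ, Continuous ψ ∧ (∀ p y, dp p y ≤ φ y + ψ p) ∧
    (∀ p y, (∀ z, φ y + dp p (z - y) ≤ φ z) → dp p y = φ y + ψ p) ∧
    ∀ ξ : V, dp ξ ξ = 1 → ConvexOn ℝ univ (fun p => ψ p - 1 / (2 * K) * adj2 L ξ p)

/-- smooth strict approximation of `ψ` from above -/
def S_REG : Prop := ∀ (L : E →L[ℝ] V) (K : ℝ) (ψ : V → ℝ), 0 < K → Continuous ψ →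
  (∀ ξ : V, dp ξ ξ = 1 → ConvexOn ℝ univ (fun p => ψ p - 1 / (2 * K) * adj2 L ξ p)) →
  ∀ ρ ε : ℝ, 0 < ρ → 0 < ε → ∃ (ψ' : V → ℝ) (η : ℝ), ContDiff ℝ 2 ψ' ∧ 0 < η ∧
    (∀ y ξ p : V, dp ξ ξ = 1 → η * dp p p + 1 / K * adj2 L ξ p ≤ hs ψ' y p p) ∧
    (∀ p, ψ p ≤ ψ' p) ∧ (∀ p, (∀ i, |p i| ≤ ρ) → ψ' p ≤ ψ p + ε)

/-- the joint functional of `∇u` and the dual variable `P` -/
def S_JOINT : Prop := ∀ (L : E →L[ℝ] V) (K : ℝ) (ψ : V → ℝ) (η : ℝ), 0 < K → 0 < η →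
  ContDiff ℝ 2 ψ →
  (∀ y ξ p : V, dp ξ ξ = 1 → η * dp p p + 1 / K * adj2 L ξ p ≤ hs ψ y p p) →
  ∀ (ι ι' : Type) [Fintype ι] [Fintype ι'] (k : ι → Fin 2 → ℤ) (c d : ι → V)
    (k' : ι' → Fin 2 → ℤ) (A B : ι' → V) (F₀ : E) (p₀ : V), (∀ i, k' i ≠ 0) →
  K / 2 * nn F₀ - dp p₀ (L F₀) + ψ p₀ ≤
    ∫ x in Icc (0 : V) 1, (K / 2 * nn (F₀ + Fam k (grk k c) (grk k d) 1 x)
      - dp (p₀ + FamG k' A B 1 x) (L (F₀ + Fam k (grk k c) (grk k d) 1 x))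
      + ψ (p₀ + FamG k' A B 1 x))

/-- approximation of continuous maps by trigonometric polynomials -/
def S_APX : Prop := ∀ (p : V → V) (M : ℝ), Continuous p → (∀ x i, |p x i| ≤ M) →
  ∃ q : ℕ → V → V, (∀ n, ∃ (ι : Type) (_ : Fintype ι) (k : ι → Fin 2 → ℤ) (A B : ι → V) (p₀ : V),
      (∀ i, k i ≠ 0) ∧ ∀ x, q n x = p₀ + FamG k A B 1 x) ∧
    (∀ n x i, |q n x i| ≤ M) ∧
    ∀ x : V, (∀ i, 0 < x i ∧ x i < 1) → Tendsto (fun n => q n x) atTop (𝓝 (p x))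

/-- (I), smooth and strongly convex -/
def S_Is : Prop := ∀ (L : E →L[ℝ] V) (K δ : ℝ) (φ : V → ℝ), 0 < K → 0 < δ → ContDiff ℝ 2 φ →
  ConvexOn ℝ univ (fun y => φ y - δ / 2 * dp y y) →
  (∀ y z ξ : V, ConvexOn ℝ univ
    (fun t : ℝ => K / 2 * (dp z z * dp ξ ξ) * t ^ 2 - φ (y + t • L (tens z ξ)))) →
  Quasiconvex (fun F => K / 2 * nn F - φ (L F))

/-! ### mollification of rank-one convex functions `ψ(T F) + B(F,F)` -/

def S_MROC : Prop := ∀ (T : E →L[ℝ] V) (ψ : V → ℝ) (B : E →L[ℝ] E →L[ℝ] ℝ),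
  Function.Surjective T → Continuous ψ → (∀ F G, B F G = B G F) →
  RankOneConvex (fun F => ψ (T F) + B F F) →
  ∀ ρ ε : ℝ, 0 < ρ → 0 < ε → ∃ ψ' : V → ℝ, ContDiff ℝ 2 ψ' ∧
    (∀ y z ξ : V, 0 ≤ hs ψ' y (T (tens z ξ)) (T (tens z ξ)) + 2 * B (tens z ξ) (tens z ξ)) ∧
    ∀ y : V, (∀ i, |y i| ≤ ρ) → |ψ' y - ψ y| ≤ ε

/-! ### the four classes -/

def S_C : Prop := ∀ (ψ : V → ℝ) (B : E →L[ℝ] E →L[ℝ] ℝ), (∀ F G, B F G = B G F) →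
  RankOneConvex (fun F => ψ (fun r => F r 0) + B F F) →
  Quasiconvex (fun F => ψ (fun r => F r 0) + B F F)

def S_R : Prop := ∀ (ψ : V → ℝ) (B : E →L[ℝ] E →L[ℝ] ℝ), (∀ F G, B F G = B G F) →
  RankOneConvex (fun F => ψ (F 0) + B F F) → Quasiconvex (fun F => ψ (F 0) + B F F)

def S_K : Prop := ∀ (ψ : V → ℝ) (m : E →L[ℝ] V) (κ : ℝ),
  RankOneConvex
    (fun F => ψ (cf F) + dp (cf F) (m F) + κ * (F 0 0 * F 1 1 - F 0 1 * F 1 0)) →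
  Quasiconvex (fun F => ψ (cf F) + dp (cf F) (m F) + κ * (F 0 0 * F 1 1 - F 0 1 * F 1 0))

/-- (K) for any linear map `L : E → ℝ²` without rank-one matrices in its kernel -/
def S_KG : Prop := ∀ (ψ : V → ℝ) (L m : E →L[ℝ] V) (κ : ℝ),
  (∀ z ξ : V, L (tens z ξ) = 0 → z = 0 ∨ ξ = 0) →
  RankOneConvex
    (fun F => ψ (L F) + dp (L F) (m F) + κ * (F 0 0 * F 1 1 - F 0 1 * F 1 0)) →
  Quasiconvex (fun F => ψ (L F) + dp (L F) (m F) + κ * (F 0 0 * F 1 1 - F 0 1 * F 1 0))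

/-- normal form of such a map -/
def S_NF : Prop := ∀ L : E →L[ℝ] V, (∀ z ξ : V, L (tens z ξ) = 0 → z = 0 ∨ ξ = 0) →
  ∃ (S R : Matrix (Fin 2) (Fin 2) ℝ) (T : V →L[ℝ] V), S.det ≠ 0 ∧ R.det ≠ 0 ∧
    ∀ F : Matrix (Fin 2) (Fin 2) ℝ, L F = T (cf (S * F * R))

def S_I : Prop := ∀ (L : E →L[ℝ] V) (K : ℝ) (φ : V → ℝ), 0 ≤ K → ConvexOn ℝ univ φ →
  RankOneConvex (fun F => K / 2 * nn F - φ (L F)) →
  Quasiconvex (fun F => K / 2 * nn F - φ (L F))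

end Pool.Agent.Q82.MD
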