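import Pool.Agent.Q82.MD.Stm

/-!
# Project MD (helper82), additional statements

(0) A second order criterion: if `W` is of class `C²` and `D²W(F)[H,H] + c(F n) det H ≥ 0` for all
`F, H`, with one continuous function `c` of the vector `F n`, then `W` is quasiconvex.

Proof: flow `u_t = ∂_n ∂_n u` and the null Lagrangian `c(∂_n u) det D(∂_n u)`.
-/

set_option autoImplicit false

namespace Pool.Agent.Q82.MD

open MeasureTheory Set Filter Topology
open Pool.Agent.W779.Morrey

/-- the flow `u_t = ∂₀∂₀ u` -/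
def S_FLOW1 : Prop := ∀ (W : E → ℝ) (θ : V → V →L[ℝ] ℝ), ContDiff ℝ 2 W → ContDiff ℝ 1 θ →
  (∀ F X : E, 0 ≤ hs W F X X + ed θ (fun r => F r 0) (fun r => X r 0) (fun r => X r 1)) →
  QCtrig W

/-- the criterion for the direction `e₀` -/
def S_CR0 : Prop := ∀ (W : E → ℝ) (c : V → ℝ), ContDiff ℝ 2 W → Continuous c →
  (∀ F H : E, 0 ≤ hs W F H H + c (fun r => F r 0) * (H 0 0 * H 1 1 - H 0 1 * H 1 0)) →
  Quasiconvex W

end Pool.Agent.Q82.MD
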