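import Pool.Agent.Q82.MD.Stm

/-! Project MD (helper82): separately convex functions of the diagonal entries. -/

set_option autoImplicit false

namespace Pool.Agent.Q82.MD

open Set

/-- Functions `f (F₁₁, F₂₂) + (K/2) (F₁₂² + F₂₁²)`, `f` separately convex, `(K/2) |y|² - f` convex,
are rank-one convex.

Proof.  `φ y = K/2 |y|² - f y` is convex and finite, hence continuous.  On the line `F + t H`,
`H = z ⊗ ξ`, put `η = (z₀ξ₀, z₁ξ₁)`, `y = (F₀₀, F₁₁)`, `S = |z|²|ξ|² ≥ (|η₀| + |η₁|)²`; then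
`W (F + tH) = K/2 S t² + affine - φ (y + tη)`.  For `λ = |η₀| / (|η₀| + |η₁|)` (both nonzero)
convexity of `φ` gives `φ(x+η) + φ(x-η) - 2 φ x ≤ λ [φ(x + (η₀/λ) e₀) + φ(x - (η₀/λ) e₀) - 2 φ x]
+ (1-λ) [same with η₁/(1-λ), e₁] ≤ K (η₀²/λ + η₁²/(1-λ)) = K (|η₀| + |η₁|)²`, since
`f` separately convex means `φ(x + s e_i) + φ(x - s e_i) - 2 φ x ≤ K s²`.  So `t ↦ W (F + tH)` is
midpoint convex and continuous, hence convex. -/
def S_SEP : Prop := ∀ (K : ℝ) (f : ℝ → ℝ → ℝ), 0 ≤ K →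
  (∀ y, ConvexOn ℝ univ (fun x => f x y)) → (∀ x, ConvexOn ℝ univ (f x)) →
  ConvexOn ℝ univ (fun v : Fin 2 → ℝ => K / 2 * (v 0 ^ 2 + v 1 ^ 2) - f (v 0) (v 1)) →
  RankOneConvex (fun F => f (F 0 0) (F 1 1) + K / 2 * (F 0 1 ^ 2 + F 1 0 ^ 2))

end Pool.Agent.Q82.MD
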